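import Pool.Agent.Helper65.CB.Dom

/-!
# TOWERS: potential density over a finite extension of the base field
-/

set_option autoImplicit false

namespace Pool.Agent.Helper35.TW

open AlgebraicGeometry CategoryTheory Pool.Agent.Helper15
open Pool.Agent.Helper65.CB (DominatedOver)

universe u

/-- a scheme potentially dense over the finite extension `M` of `K` is so over `K` -/
theorem PotentiallyDense.restrict {K M : Type u} [Field K] [Field M] [Algebra K M]
    [FiniteDimensional K M] {Y : Scheme.{u}} {t : Y ⟶ Spec (CommRingCat.of M)}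
    (h : PotentiallyDense M Y t) :
    PotentiallyDense K Y (t ≫ Spec.map (CommRingCat.ofHom (algebraMap K M))) := by
  obtain ⟨L, iL, aL, hfin, hdense⟩ := h
  let : Algebra K L := ((algebraMap M L).comp (algebraMap K M)).toAlgebra
  have : IsScalarTower K M L := IsScalarTower.of_algebraMap_eq fun _ => rfl
  refine ⟨L, iL, inferInstance, FiniteDimensional.trans K M L, hdense.mono ?_⟩
  rintro x ⟨p, hp, y, hy⟩
  refine ⟨p, ?_, y, hy⟩
  rw [← Category.assoc, hp, ← Spec.map_comp, ← CommRingCat.ofHom_comp]

/-- a `K`-scheme dominated over `K` by an `M`-scheme which is potentially dense over `M` -/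
theorem PotentiallyDense.of_dominated_restrict {K M : Type u} [Field K] [Field M] [Algebra K M]
    [FiniteDimensional K M] {X Y : Scheme.{u}} {s : X ⟶ Spec (CommRingCat.of K)}
    {t : Y ⟶ Spec (CommRingCat.of M)}
    (hd : DominatedOver K X Y s (t ≫ Spec.map (CommRingCat.ofHom (algebraMap K M))))
    (h : PotentiallyDense M Y t) : PotentiallyDense K X s :=
  Pool.Agent.Helper65.CB.PotentiallyDense.of_dominated hd (PotentiallyDense.restrict h)

/-- the same for an `M`-algebra -/
theorem PotentiallyDense.of_dominated_spec {K M R : Type u} [Field K] [Field M] [Algebra K M]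
    [FiniteDimensional K M] [CommRing R] [Algebra M R] [Algebra K R] [IsScalarTower K M R]
    {X : Scheme.{u}} {s : X ⟶ Spec (CommRingCat.of K)}
    (hd : DominatedOver K X (Spec (CommRingCat.of R)) s
      (Spec.map (CommRingCat.ofHom (algebraMap K R))))
    (h : PotentiallyDense M (Spec (CommRingCat.of R))
      (Spec.map (CommRingCat.ofHom (algebraMap M R)))) : PotentiallyDense K X s := by
  refine PotentiallyDense.of_dominated_restrict (M := M) ?_ h
  rw [← Spec.map_comp, ← CommRingCat.ofHom_comp, ← IsScalarTower.algebraMap_eq]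
  exact hd

theorem DominatedOver.refl {K : Type u} [Field K] {Y : Scheme.{u}} [Nonempty Y]
    (t : Y ⟶ Spec (CommRingCat.of K)) : DominatedOver K Y Y t t :=
  ⟨Y, 𝟙 Y, 𝟙 Y, inferInstance, inferInstance, inferInstance, rfl⟩

/-- the conclusion for the `M`-schemes dominated by `Spec R` passes to the `K`-schemes dominated by
`Spec R` -/
theorem closure_restrict {K M R : Type u} [Field K] [Field M] [Algebra K M]
    [FiniteDimensional K M] [CommRing R] [Algebra M R] [Algebra K R] [IsScalarTower K M R]
    (h : ∀ (X : Scheme.{u}) (t : X ⟶ Spec (CommRingCat.of M)),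
      DominatedOver M X (Spec (CommRingCat.of R)) t
        (Spec.map (CommRingCat.ofHom (algebraMap M R))) → PotentiallyDense M X t)
    (X : Scheme.{u}) (s : X ⟶ Spec (CommRingCat.of K))
    (hd : DominatedOver K X (Spec (CommRingCat.of R)) s
      (Spec.map (CommRingCat.ofHom (algebraMap K R)))) : PotentiallyDense K X s := by
  have h1 : Nonempty (Spec (CommRingCat.of R)) := by
    obtain ⟨W, f, j, -, -, hW, -⟩ := hd
    exact ⟨j hW.some⟩
  exact PotentiallyDense.of_dominated_spec hd (h _ _ (DominatedOver.refl _))

end Pool.Agent.Helper35.TW
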