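import Pool.Agent.Helper65.TW.Main

/-!
# TOWERS: the class, stated over plain rings

`Tow K I ⟨R, t⟩`: the smallest class of pairs `(R, t)` of a `K`-algebra `R` and an ideal `t` of `R`
which contains the cone of `T = V(I)` with its vertex and is closed under the steps `affine`,
`hom`, `quad` and `proj`.
-/

set_option autoImplicit false

namespace Pool.Agent.Helper35.TW

open Pool.Agent.Helper69.CB TensorProduct MvPolynomial
open Pool.Agent.Helper35.BR (HomRing)
open Pool.Agent.Helper65.TW (Gen tors coords qf Var Tower)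

/-- some power of `t` lies in `J` -/
def PowLe {R : Type} [CommRing R] (t J : Ideal R) : Prop := ∃ s : ℕ, t ^ s ≤ J

/-- the ideal generated by the coefficients of the elements of `W` -/
def content {R : Type} [CommRing R] {n : ℕ} (W : Ideal (MvPolynomial (Fin n) R)) : Ideal R :=
  Ideal.span {c | ∃ a ∈ W, ∃ d, c = a.coeff d}

/-- the irreducible polynomials over the fraction field which divide all elements of `W` have
degree at most three in their first variable -/
def SmallDeg {R : Type} [CommRing R] [IsDomain R] {n : ℕ} (W : Ideal (MvPolynomial (Fin n) R)) :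
    Prop :=
  ∀ P : MvPolynomial (Fin n) (FractionRing R), Irreducible P →
    (∀ a ∈ W, P ∣ map (algebraMap R (FractionRing R)) a) → TriDeg 3 P

/-- the ideal generated by the minors of size three -/
noncomputable def minors {R : Type} [CommRing R] {n : ℕ} (q : Matrix (Fin n) (Fin n) R) :
    Ideal R :=
  Ideal.span (Set.range fun fg : (Fin 3 → Fin n) × (Fin 3 → Fin n) =>
    (q.submatrix fg.1 fg.2).det)

/-- `A` is a module-finite algebra, Azumaya outside the zeros of `t`, of degree `m` -/
def AzOff {R : Type} [CommRing R] [IsDomain R] (t : Ideal R) (A : Type) [Ring A] [Algebra R A]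
    (m : ℕ) : Prop :=
  0 < m ∧ Module.Finite R A ∧
    Module.finrank (FractionRing R) (FractionRing R ⊗[R] A) = m ^ 2 ∧
    ∀ x ∈ t, x ≠ 0 → IsAzumaya (Localization.Away x) (Localization.Away x ⊗[R] A)

/-- `J` is homogeneous -/
def Homog {R : Type} [CommRing R] {n : ℕ} (J : Ideal (MvPolynomial (Fin n) R)) : Prop :=
  ∀ f ∈ J, ∀ d : ℕ, homogeneousComponent d f ∈ J

/-- `R` lies in `S`, some power of `u` lies in `t S`, `J` is a homogeneous prime, and the
`R`-algebra maps of its coordinate ring to `S` which do not kill the coordinates are dense -/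
def ManySec {R : Type} [CommRing R] (t : Ideal R) {S : Type} [CommRing S] [Algebra R S]
    (u : Ideal S) {n : ℕ} (J : Ideal (MvPolynomial (Fin n) R)) : Prop :=
  Function.Injective (algebraMap R S) ∧ PowLe u (t.map (algebraMap R S)) ∧ J.IsPrime ∧ Homog J ∧
    ∀ f : MvPolynomial (Fin n) R ⧸ J, f ≠ 0 →
      ∃ ψ : (MvPolynomial (Fin n) R ⧸ J) →ₐ[R] S, ψ f ≠ 0 ∧
        ∃ k, ψ (Ideal.Quotient.mk J (X k)) ≠ 0

/-- the ideal `t (y)` of `R[y] / J` -/
noncomputable def coneIdeal {R : Type} [CommRing R] (t : Ideal R) {n : ℕ}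
    (J : Ideal (MvPolynomial (Fin n) R)) : Ideal (MvPolynomial (Fin n) R ⧸ J) :=
  t.map (algebraMap R _) * coords J

/-- the pair `(R[y] / J, t (y))` -/
noncomputable def cone (K : Type) [Field K] {R : Type} [CommRing R] [Algebra K R] (t : Ideal R)
    {n : ℕ} (J : Ideal (MvPolynomial (Fin n) R)) : Var K :=
  ⟨MvPolynomial (Fin n) R ⧸ J, coneIdeal t J⟩

/-- the pair `(R[x], t W)` -/
noncomputable def aff (K : Type) [Field K] {R : Type} [CommRing R] [Algebra K R] (t : Ideal R)
    {n : ℕ} (W : Ideal (MvPolynomial (Fin n) R)) : Var K :=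
  ⟨MvPolynomial (Fin n) R, t.map C * W⟩

/-- the generic part of the pair `(B, b)` -/
noncomputable def gen (K R : Type) [Field K] [CommRing R] [IsDomain R] {B : Type} [CommRing B]
    [Algebra K B] [Algebra R B] (b : Ideal B) : Var K :=
  ⟨Gen R B, b.map (Ideal.Quotient.mk (tors R B))⟩

/-- the torsor of the algebras `A i` -/
noncomputable def homPair (K : Type) [Field K] {R : Type} [CommRing R] [IsDomain R] [Algebra K R]
    (t : Ideal R) {r : ℕ} (A : Fin r → Type) [∀ i, Ring (A i)] [∀ i, Algebra R (A i)]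
    (m : Fin r → ℕ) : Var K :=
  gen K R (t.map (algebraMap R (HomRing R A m)))

/-- the cone of the quadric of the symmetric matrix `q` -/
noncomputable def quadPair (K : Type) [Field K] {R : Type} [CommRing R] [IsDomain R] [Algebra K R]
    (t : Ideal R) {n : ℕ} (q : Matrix (Fin n) (Fin n) R) : Var K :=
  gen K R (coneIdeal t (Ideal.span {qf q}))

/-- the class of pairs over the cone of `T = V(I)` -/
inductive Tow (K : Type) [Field K] {N : ℕ} (I : Ideal (MvPolynomial (Fin N) K)) : Var K → Prop
  | base : Tow K I (cone K (⊤ : Ideal K) I)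
  | affine (R : Type) [CommRing R] [IsDomain R] [Algebra K R] (t : Ideal R) (h : Tow K I ⟨R, t⟩)
      (n : ℕ) (W : Ideal (MvPolynomial (Fin n) R)) (h1 : PowLe t (content W))
      (h2 : SmallDeg W) : Tow K I (aff K t W)
  | hom (R : Type) [CommRing R] [IsDomain R] [Algebra K R] (t : Ideal R) (h : Tow K I ⟨R, t⟩)
      (r : ℕ) (A : Fin r → Type) [∀ i, Ring (A i)] [∀ i, Algebra R (A i)] (m : Fin r → ℕ)
      (h1 : ∀ i, AzOff t (A i) (m i)) : Tow K I (homPair K t A m)
  | quad (R : Type) [CommRing R] [IsDomain R] [Algebra K R] (t : Ideal R) (h : Tow K I ⟨R, t⟩)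
      (n : ℕ) (q : Matrix (Fin n) (Fin n) R) (h1 : q.IsSymm) (h2 : PowLe t (minors q)) :
      Tow K I (quadPair K t q)
  | proj (R : Type) [CommRing R] [Algebra K R] (t : Ideal R) (h : Tow K I ⟨R, t⟩)
      (S : Type) [CommRing S] [Algebra K S] (u : Ideal S) (h' : Tow K I ⟨S, u⟩)
      [Algebra R S] [IsScalarTower K R S] (n : ℕ) (J : Ideal (MvPolynomial (Fin n) R))
      (h1 : ManySec t u J) : Tow K I (cone K t J)

theorem Tow.tower {K : Type} [Field K] {N : ℕ} {I : Ideal (MvPolynomial (Fin N) K)} {V : Var K}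
    (h : Tow K I V) : Tower K I V := by
  induction h with
  | base =>
    have h1 : coneIdeal (⊤ : Ideal K) I = coords I := by
      rw [coneIdeal, Ideal.map_top, Ideal.top_mul]
    rw [cone, h1]
    exact Tower.base
  | affine R t h n W h1 h2 ih =>
    obtain ⟨s, hs⟩ := h1
    exact Tower.affine ⟨R, t⟩ ih n s W hs h2
  | hom R t h r A m h1 ih =>
    have hf : ∀ i, Module.Finite R (A i) := fun i => (h1 i).2.1
    have h3 := Tower.hom ⟨R, t⟩ ih r A m (fun i => (h1 i).1) (fun i => (h1 i).2.2.2)
      (fun i => (h1 i).2.2.1)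
    have h4 : (t.map (algebraMap R (HomRing R A m))).map
        (Ideal.Quotient.mk (tors R (HomRing R A m))) =
        t.map (algebraMap R (Gen R (HomRing R A m))) := Ideal.map_map _ _
    rw [homPair, gen, h4]
    exact h3
  | quad R t h n q h1 h2 ih =>
    obtain ⟨s, hs⟩ := h2
    have h3 := Tower.quad ⟨R, t⟩ ih n s q h1 hs
    have h4 : (coneIdeal t (Ideal.span {qf q})).map (Ideal.Quotient.mk (tors R _)) =
        t.map (algebraMap R (Gen R (MvPolynomial (Fin n) R ⧸ Ideal.span {qf q}))) *
          Ideal.span (Set.range fun k => Ideal.Quotient.mk _ (Ideal.Quotient.mk _ (X k))) := by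
      rw [coneIdeal, Ideal.map_mul, Ideal.map_map, coords, Ideal.map_span, ← Set.range_comp]
      rfl
    rw [quadPair, gen, h4]
    exact h3
  | proj R t h S u h' n J h1 ih ih' =>
    obtain ⟨h1, ⟨s, hs⟩, h2, h3, h4⟩ := h1
    exact Tower.proj ⟨R, t⟩ ⟨S, u⟩ ih ih' h1 n s hs J h3 h4

end Pool.Agent.Helper35.TW
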