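import Mathlib

/-!
# The ring of a conic bundle over a domain
-/

set_option autoImplicit false

namespace Pool.Agent.Helper35.TW

open Polynomial

/-- a square is never `a Z ^ 2 + b` over a domain of characteristic not two, `a b` not zero -/
theorem sq_ne {F : Type*} [CommRing F] [IsDomain F] (h2 : (2 : F) ≠ 0) {a b : F} (ha : a ≠ 0)
    (hb : b ≠ 0) (g : F[X]) : g ^ 2 ≠ C a * X ^ 2 + C b := by
  intro h
  have hd : (C a * X ^ 2 + C b : F[X]).natDegree = 2 := by
    compute_degree!
  have h1 : g.natDegree = 1 := by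
    have := congrArg natDegree h
    rw [natDegree_pow, hd] at this
    omega
  obtain ⟨u, v, hu, rfl⟩ : ∃ u v : F, u ≠ 0 ∧ g = C u * X + C v := by
    refine ⟨g.coeff 1, g.coeff 0, ?_, eq_X_add_C_of_natDegree_le_one h1.le⟩
    intro h0
    have := leadingCoeff_ne_zero.2 (show g ≠ 0 from fun hg => by simp [hg] at h1)
    rw [leadingCoeff, h1] at this
    exact this h0
  have e : (C u * X + C v : F[X]) ^ 2 = C (u ^ 2) * X ^ 2 + C (2 * u * v) * X + C (v ^ 2) := by
    simp only [C_mul, C_pow]
    have : (C (2 : F) : F[X]) = 2 := rfl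
    rw [this]
    ring
  rw [e] at h
  have c1 : 2 * u * v = 0 := by
    have := congrArg (fun p : F[X] => p.coeff 1) h
    simp only [coeff_add, coeff_C_mul, coeff_X_pow, coeff_X, coeff_C] at this
    simpa using this
  have c0 : v ^ 2 = b := by
    have := congrArg (fun p : F[X] => p.coeff 0) h
    simp only [coeff_add, coeff_C_mul, coeff_X_pow, coeff_X, coeff_C] at this
    simpa using this
  have hv : v = 0 := by
    rcases mul_eq_zero.1 c1 with h3 | h3
    · exact absurd h3 (mul_ne_zero h2 hu)
    · exact h3
  rw [hv] at c0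
  exact hb (by rw [← c0]; simp)

/-- the polynomial `Y ^ 2 - (a Z ^ 2 + b)` over `R[Z]` -/
noncomputable def conicPoly {R : Type*} [CommRing R] (a b : R) : R[X][X] :=
  X ^ 2 - C (C a * X ^ 2 + C b)

theorem conicPoly_monic {R : Type*} [CommRing R] [Nontrivial R] (a b : R) :
    (conicPoly a b).Monic := by
  unfold conicPoly
  exact monic_X_pow_sub_C _ two_ne_zero

theorem conicPoly_natDegree {R : Type*} [CommRing R] [Nontrivial R] (a b : R) :
    (conicPoly a b).natDegree = 2 := by
  unfold conicPoly
  exact natDegree_X_pow_sub_C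

theorem conicPoly_prime {R : Type*} [CommRing R] [IsDomain R] (h2 : (2 : R) ≠ 0) {a b : R}
    (ha : a ≠ 0) (hb : b ≠ 0) : Prime (conicPoly a b) := by
  let F := FractionRing R
  let φ : R →+* F := algebraMap R F
  have hφ : Function.Injective φ := IsFractionRing.injective R F
  have hF : Prime (conicPoly (φ a) (φ b)) := by
    rw [← UniqueFactorizationMonoid.irreducible_iff_prime]
    rw [(conicPoly_monic _ _).irreducible_iff_roots_eq_zero_of_degree_le_three
      (conicPoly_natDegree _ _).ge ((conicPoly_natDegree _ _).le.trans (by norm_num))]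
    rw [Multiset.eq_zero_iff_forall_notMem]
    intro g hg
    have := (mem_roots'.1 hg).2
    rw [IsRoot.def, conicPoly, eval_sub, eval_pow, eval_X, eval_C, sub_eq_zero] at this
    refine sq_ne (F := F) ?_ ((map_ne_zero_iff φ hφ).2 ha) ((map_ne_zero_iff φ hφ).2 hb) g this
    have : φ 2 = 2 := map_ofNat φ 2
    rw [← this]
    exact (map_ne_zero_iff φ hφ).2 h2
  have hm : (conicPoly a b).map (mapRingHom φ) = conicPoly (φ a) (φ b) := by
    simp [conicPoly]
  have hinj : Function.Injective (mapRingHom φ) := map_injective φ hφ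
  refine ⟨(conicPoly_monic a b).ne_zero, fun hu => ?_, fun f g hfg => ?_⟩
  · have := natDegree_eq_zero_of_isUnit hu
    rw [conicPoly_natDegree] at this
    omega
  · have h1 := (map_dvd_map (mapRingHom φ) hinj (conicPoly_monic a b)).2 hfg
    rw [hm, Polynomial.map_mul] at h1
    rcases hF.dvd_or_dvd h1 with h | h
    · left
      rw [← hm] at h
      exact (map_dvd_map (mapRingHom φ) hinj (conicPoly_monic a b)).1 h
    · right
      rw [← hm] at h
      exact (map_dvd_map (mapRingHom φ) hinj (conicPoly_monic a b)).1 h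

/-- the conic bundle `y ^ 2 = a z ^ 2 + b` -/
abbrev Conic {R : Type} [CommRing R] (a b : R) : Type := AdjoinRoot (conicPoly a b)

theorem conic_domain {R : Type} [CommRing R] [IsDomain R] (h2 : (2 : R) ≠ 0) {a b : R}
    (ha : a ≠ 0) (hb : b ≠ 0) : IsDomain (Conic a b) :=
  AdjoinRoot.isDomain_of_prime (conicPoly_prime h2 ha hb)

theorem conic_injective {R : Type} [CommRing R] [IsDomain R] (a b : R) :
    Function.Injective (algebraMap R (Conic a b)) := by
  have h1 : Function.Injective (AdjoinRoot.of (conicPoly a b)) :=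
    AdjoinRoot.of.injective_of_degree_ne_zero (by
      rw [degree_eq_natDegree (conicPoly_monic a b).ne_zero, conicPoly_natDegree]
      norm_num)
  have h3 : algebraMap R (Conic a b) = (AdjoinRoot.of (conicPoly a b)).comp C := rfl
  rw [h3]
  exact h1.comp C_injective

end Pool.Agent.Helper35.TW
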