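import Pool.Agent.Helper65.TW.Main
import Pool.Agent.Helper35.TW.ConicAlg
import Pool.Agent.Helper35.TW.Cls

/-!
# The affine conic bundle is dominated by the cone of the projective one
-/

set_option autoImplicit false
set_option linter.unusedSectionVars false

namespace Pool.Agent.Helper35.TW

open AlgebraicGeometry CategoryTheory MvPolynomial Pool.Agent.Helper15
open Pool.Agent.Helper65.CB (DominatedOver)
open Pool.Agent.Helper65.TW (Gen tors coords qf Var Tower)

variable {R : Type} [CommRing R] [IsDomain R]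

/-- the matrix of `y0 ^ 2 - a y1 ^ 2 - b y2 ^ 2` -/
def qm (a b : R) : Matrix (Fin 3) (Fin 3) R := Matrix.diagonal ![1, -a, -b]

theorem qm_symm (a b : R) : (qm a b).IsSymm := Matrix.isSymm_diagonal _

theorem qf_qm (a b : R) : qf (qm a b) = X 0 ^ 2 - C a * X 1 ^ 2 - C b * X 2 ^ 2 := by
  unfold qf qm
  simp [Fin.sum_univ_three, Matrix.diagonal]
  ring

theorem qm_det (a b : R) : (qm a b).det = a * b := by
  unfold qm
  rw [Matrix.det_diagonal]
  simp [Fin.prod_univ_three]

/-- the ring of the cone -/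
abbrev QG (a b : R) : Type := Gen R (MvPolynomial (Fin 3) R ⧸ Ideal.span {qf (qm a b)})

/-- the coordinates -/
noncomputable def yy (a b : R) (k : Fin 3) : QG a b :=
  Ideal.Quotient.mk _ (Ideal.Quotient.mk _ (X k))

theorem yy_rel (a b : R) : yy a b 0 ^ 2 - algebraMap R (QG a b) a * yy a b 1 ^ 2 -
    algebraMap R (QG a b) b * yy a b 2 ^ 2 = 0 := by
  have h1 : (Ideal.Quotient.mk (Ideal.span {qf (qm a b)})
      (X 0 ^ 2 - C a * X 1 ^ 2 - C b * X 2 ^ 2)) = 0 :=
    Ideal.Quotient.eq_zero_iff_mem.2 (by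
      rw [← qf_qm]
      exact Ideal.mem_span_singleton_self _)
  have h2 := congrArg (Ideal.Quotient.mk (tors R (MvPolynomial (Fin 3) R ⧸
    Ideal.span {qf (qm a b)}))) h1
  rw [map_zero] at h2
  simp only [map_sub, map_mul, map_pow] at h2
  exact h2

/-- the point `(y, z, 1)` -/
noncomputable def chi0 (a b : R) :
    (MvPolynomial (Fin 3) R ⧸ Ideal.span {qf (qm a b)}) →ₐ[R] Conic a b :=
  Ideal.Quotient.liftₐ _ (MvPolynomial.aeval
    ![AdjoinRoot.root (conicPoly a b), AdjoinRoot.of (conicPoly a b) Polynomial.X, 1]) (by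
    intro f hf
    rw [Ideal.mem_span_singleton] at hf
    obtain ⟨g, rfl⟩ := hf
    rw [map_mul]
    have h0 : MvPolynomial.aeval
        ![AdjoinRoot.root (conicPoly a b), AdjoinRoot.of (conicPoly a b) Polynomial.X, 1]
        (qf (qm a b)) = 0 := by
      rw [qf_qm]
      have h1 : (AdjoinRoot.mk (conicPoly a b)) (conicPoly a b) = 0 := AdjoinRoot.mk_self
      conv at h1 => 
        lhs
        arg 2
        rw [conicPoly]
      simp only [map_sub, map_pow, map_add, map_mul, AdjoinRoot.mk_X, AdjoinRoot.mk_C] at h1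
      simp only [map_sub, map_pow, map_mul, MvPolynomial.aeval_X, MvPolynomial.aeval_C]
      simp only [Matrix.cons_val_zero, Matrix.cons_val_one, Matrix.cons_val_two, Matrix.head_cons,
        Matrix.tail_cons, Matrix.cons_val]
      have e : ∀ c : R, algebraMap R (Conic a b) c = AdjoinRoot.of (conicPoly a b)
        (Polynomial.C c) := fun _ => rfl
      rw [e, e]
      linear_combination h1
    rw [h0, zero_mul])

theorem chi0_tors (h2 : (2 : R) ≠ 0) {a b : R} (ha : a ≠ 0) (hb : b ≠ 0)
    (f : MvPolynomial (Fin 3) R ⧸ Ideal.span {qf (qm a b)})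
    (hf : f ∈ tors R (MvPolynomial (Fin 3) R ⧸ Ideal.span {qf (qm a b)})) :
    chi0 a b f = 0 := by
  have hd := conic_domain h2 ha hb
  obtain ⟨r, hr, hn⟩ := hf
  have h1 := hn.map (chi0 a b)
  rw [map_smul, Algebra.smul_def] at h1
  have h3 := h1.eq_zero
  rcases mul_eq_zero.1 h3 with h4 | h4
  · exact absurd (conic_injective a b (h4.trans (map_zero _).symm)) hr
  · exact h4

/-- the point `(y, z, 1)` of the cone -/
noncomputable def chi (h2 : (2 : R) ≠ 0) {a b : R} (ha : a ≠ 0) (hb : b ≠ 0) :
    QG a b →ₐ[R] Conic a b :=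
  Ideal.Quotient.liftₐ _ (chi0 a b) (chi0_tors h2 ha hb)

theorem chi_yy (h2 : (2 : R) ≠ 0) {a b : R} (ha : a ≠ 0) (hb : b ≠ 0) (k : Fin 3) :
    chi h2 ha hb (yy a b k) =
      ![AdjoinRoot.root (conicPoly a b), AdjoinRoot.of (conicPoly a b) Polynomial.X, 1] k := by
  show MvPolynomial.aeval _ (X k) = _
  rw [MvPolynomial.aeval_X]

/-- the inverse of the last coordinate -/
noncomputable def ww (a b : R) : Localization.Away (yy a b 2) :=
  IsLocalization.Away.invSelf (yy a b 2)

theorem ww_mul (a b : R) : algebraMap (QG a b) (Localization.Away (yy a b 2)) (yy a b 2) *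
    ww a b = 1 := IsLocalization.Away.mul_invSelf _

/-- the map to the localised ring of the cone -/
noncomputable def psi (a b : R) : Conic a b →+* Localization.Away (yy a b 2) :=
  AdjoinRoot.lift
    (Polynomial.eval₂RingHom ((algebraMap (QG a b) (Localization.Away (yy a b 2))).comp
      (algebraMap R (QG a b))) (algebraMap (QG a b) _ (yy a b 1) * ww a b))
    (algebraMap (QG a b) _ (yy a b 0) * ww a b) (by
    have h1 := congrArg (algebraMap (QG a b) (Localization.Away (yy a b 2))) (yy_rel a b)
    have h2 := ww_mul a b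
    simp only [map_sub, map_mul, map_pow, map_zero] at h1
    simp only [conicPoly, Polynomial.eval₂_sub, Polynomial.eval₂_pow, Polynomial.eval₂_X,
      Polynomial.eval₂_C, Polynomial.coe_eval₂RingHom, Polynomial.eval₂_add, Polynomial.eval₂_mul,
      RingHom.comp_apply]
    linear_combination (ww a b) ^ 2 * h1 +
      algebraMap (QG a b) (Localization.Away (yy a b 2)) (algebraMap R (QG a b) b) *
      (algebraMap (QG a b) (Localization.Away (yy a b 2)) (yy a b 2) * ww a b + 1) * h2)

theorem psi_injective (h2 : (2 : R) ≠ 0) {a b : R} (ha : a ≠ 0) (hb : b ≠ 0) :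
    Function.Injective (psi a b) := by
  have h1 : chi h2 ha hb (yy a b 2) = 1 := chi_yy h2 ha hb 2
  have hu : IsUnit ((chi h2 ha hb : QG a b →+* Conic a b) (yy a b 2)) := by
    have : (chi h2 ha hb : QG a b →+* Conic a b) (yy a b 2) = 1 := h1
    rw [this]
    exact isUnit_one
  let ρ : Localization.Away (yy a b 2) →+* Conic a b := IsLocalization.Away.lift (yy a b 2) hu
  have hρ : ∀ x, ρ (algebraMap (QG a b) _ x) = chi h2 ha hb x := fun x =>
    IsLocalization.Away.lift_eq (yy a b 2) hu x
  have hw : ρ (ww a b) = 1 := by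
    have := congrArg ρ (ww_mul a b)
    rw [map_mul, hρ, h1, one_mul, map_one] at this
    exact this
  have hc : ρ.comp (psi a b) = RingHom.id _ := by
    apply AdjoinRoot.ringHom_ext
    · apply Polynomial.ringHom_ext
      · intro r
        simp only [RingHom.comp_apply, psi, AdjoinRoot.lift_of, Polynomial.coe_eval₂RingHom,
          Polynomial.eval₂_C, hρ, AlgHom.commutes]
        rfl
      · simp only [RingHom.comp_apply, psi, AdjoinRoot.lift_of, Polynomial.coe_eval₂RingHom,
          Polynomial.eval₂_X, map_mul, hρ, hw, chi_yy, mul_one]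
        rfl
    · simp only [RingHom.comp_apply, psi, AdjoinRoot.lift_root, map_mul, hρ, hw, chi_yy, mul_one]
      rfl
  intro x y hxy
  have := congrArg ρ hxy
  rw [← RingHom.comp_apply, ← RingHom.comp_apply, hc] at this
  exact this

theorem conic_dominated {K : Type} [Field K] [Algebra K R] (h2 : (2 : R) ≠ 0) {a b : R}
    (ha : a ≠ 0) (hb : b ≠ 0) :
    DominatedOver K (Spec (CommRingCat.of (Conic a b))) (Spec (CommRingCat.of (QG a b)))
      (Spec.map (CommRingCat.ofHom (algebraMap K (Conic a b))))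
      (Spec.map (CommRingCat.ofHom (algebraMap K (QG a b)))) := by
  have hd := conic_domain h2 ha hb
  have hi := psi_injective h2 ha hb
  have hn : Nontrivial (Localization.Away (yy a b 2)) := hi.nontrivial
  refine ⟨Spec (CommRingCat.of (Localization.Away (yy a b 2))),
    Spec.map (CommRingCat.ofHom (psi a b)),
    Spec.map (CommRingCat.ofHom (algebraMap (QG a b) (Localization.Away (yy a b 2)))),
    Pool.Agent.Helper3.TW.isDominant_map _ hi, inferInstance, ?_, ?_⟩
  · exact inferInstanceAs (Nonempty (PrimeSpectrum _))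
  · rw [← Spec.map_comp, ← Spec.map_comp, ← CommRingCat.ofHom_comp, ← CommRingCat.ofHom_comp]
    congr 2
    refine RingHom.ext fun c => ?_
    show psi a b (AdjoinRoot.of (conicPoly a b) (Polynomial.C (algebraMap K R c))) =
      algebraMap (QG a b) (Localization.Away (yy a b 2))
        (algebraMap R (QG a b) (algebraMap K R c))
    simp only [psi, AdjoinRoot.lift_of, Polynomial.coe_eval₂RingHom, Polynomial.eval₂_C,
      RingHom.comp_apply]

/-- **conic bundles over the cone of a projective variety times an affine space** -/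
theorem conic_main (K : Type) [Field K] [NumberField K] (N : ℕ) (I : Ideal (MvPolynomial (Fin N) K))
    [I.IsPrime] (hI : ∀ f ∈ I, ∀ d : ℕ, homogeneousComponent d f ∈ I) (hX : ∃ k, X k ∉ I)
    (n : ℕ) (a b : MvPolynomial (Fin n) (MvPolynomial (Fin N) K ⧸ I))
    (h1 : ∃ s : ℕ, (Ideal.span (Set.range fun k => Ideal.Quotient.mk I (X k))) ^ s ≤
      Ideal.span (Set.range fun d => (a * b).coeff d))
    (h3 : ∀ P : MvPolynomial (Fin n) (FractionRing (MvPolynomial (Fin N) K ⧸ I)), Irreducible P →
      P ∣ map (algebraMap _ _) (a * b) → ∀ k, (∀ i < k, P.degreeOf i = 0) → P.degreeOf k ≤ 3) :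
    PotentiallyDense K (Spec (CommRingCat.of (Conic a b)))
        (Spec.map (CommRingCat.ofHom (algebraMap K (Conic a b)))) ↔
      PotentiallyDense K (Spec (CommRingCat.of (MvPolynomial (Fin N) K ⧸ I)))
        (Spec.map (CommRingCat.ofHom (algebraMap K (MvPolynomial (Fin N) K ⧸ I)))) := by
  have hab : a * b ≠ 0 := by
    intro h0
    obtain ⟨s, hs⟩ := h1
    obtain ⟨k, hk⟩ := hX
    have h4 : Ideal.Quotient.mk I (X k) ^ s ∈
        Ideal.span (Set.range fun d => (a * b).coeff d) :=
      hs (Ideal.pow_mem_pow (Ideal.subset_span (Set.mem_range_self k)) s)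
    rw [h0] at h4
    have h5 : Ideal.span (Set.range fun d =>
        (0 : MvPolynomial (Fin n) (MvPolynomial (Fin N) K ⧸ I)).coeff d) = ⊥ := by
      rw [Ideal.span_eq_bot]
      rintro _ ⟨d, rfl⟩
      simp
    rw [h5, Submodule.mem_bot] at h4
    have hs0 : s ≠ 0 := by
      rintro rfl
      rw [pow_zero] at h4
      exact one_ne_zero h4
    exact hk (Ideal.Quotient.eq_zero_iff_mem.1 ((pow_eq_zero_iff hs0).1 h4))
  have ha : a ≠ 0 := left_ne_zero_of_mul hab
  have hb : b ≠ 0 := right_ne_zero_of_mul hab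
  have hch : CharZero (MvPolynomial (Fin n) (MvPolynomial (Fin N) K ⧸ I)) :=
    charZero_of_injective_algebraMap (algebraMap K _).injective
  have h2 : (2 : MvPolynomial (Fin n) (MvPolynomial (Fin N) K ⧸ I)) ≠ 0 := two_ne_zero
  have hd := conic_domain (R := MvPolynomial (Fin n) (MvPolynomial (Fin N) K ⧸ I)) h2 ha hb
  have hbase : Tow K I ⟨MvPolynomial (Fin N) K ⧸ I, coneIdeal (⊤ : Ideal K) I⟩ := Tow.base
  have hcoords : coneIdeal (⊤ : Ideal K) I =
      Ideal.span (Set.range fun k => Ideal.Quotient.mk I (X k)) := by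
    rw [coneIdeal, Ideal.map_top, Ideal.top_mul]
  have haff : Tow K I (aff K (coneIdeal (⊤ : Ideal K) I) (Ideal.span {a * b})) := by
    refine Tow.affine _ _ hbase n _ ?_ ?_
    · obtain ⟨s, hs⟩ := h1
      refine ⟨s, ?_⟩
      rw [hcoords]
      refine hs.trans (Ideal.span_mono ?_)
      rintro _ ⟨d, rfl⟩
      exact ⟨a * b, Ideal.mem_span_singleton_self _, d, rfl⟩
    · intro P hP hdiv
      exact h3 P hP (hdiv _ (Ideal.mem_span_singleton_self _))
  have hquad : Tow K I (quadPair K ((coneIdeal (⊤ : Ideal K) I).map C * Ideal.span {a * b})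
      (qm a b)) := by
    refine Tow.quad _ _ haff 3 (qm a b) (qm_symm a b) ⟨1, ?_⟩
    rw [pow_one]
    refine Ideal.mul_le_right.trans ?_
    rw [Ideal.span_singleton_le_iff_mem]
    refine Ideal.subset_span ⟨(id, id), ?_⟩
    rw [← qm_det a b]
    rfl
  obtain ⟨h6, h7⟩ := Pool.Agent.Helper65.TW.tower_main hI hX hquad.tower
  constructor
  · intro h
    let j : (MvPolynomial (Fin N) K ⧸ I) →ₐ[K] Conic a b :=
      { toRingHom := ((AdjoinRoot.of (conicPoly a b)).comp Polynomial.C).comp C
        commutes' := fun _ => rfl }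
    have hj : Function.Injective j := (conic_injective a b).comp (C_injective _ _)
    exact Pool.Agent.Helper3.TW.pd_of_injective j hj h
  · intro h
    exact Pool.Agent.Helper65.CB.PotentiallyDense.of_dominated (conic_dominated h2 ha hb) (h7.2 h)

end Pool.Agent.Helper35.TW
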