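import Pool.Agent.Helper35.BR.End

/-!
# TOWERS, T6a: the points of `HomRing` over an algebraically closed field, and over a field `L` with a
predicate which is stable under conjugation by `SL_m(Z)`
-/

set_option autoImplicit false

namespace Pool.Agent.Helper35.TW

open MvPolynomial TensorProduct Pool.Agent.Helper35.BR
open Pool.Agent.Helper98.BR Pool.Agent.Helper66.BR Pool.Agent.Helper29.BR

/-- the generic statement over algebraically closed fields -/
theorem end_core {R : Type} [CommRing R] [IsDomain R] {r : ℕ}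
    (A : Fin r → Type) [∀ i, Ring (A i)] [∀ i, Algebra R (A i)] [∀ i, Module.Finite R (A i)]
    (m : Fin r → ℕ)
    (hc : ∀ i, Algebra.IsCentral (FractionRing R) (FractionRing R ⊗[R] A i))
    (hs : ∀ i, IsSimpleRing (FractionRing R ⊗[R] A i))
    (hm : ∀ i, Module.finrank (FractionRing R) (FractionRing R ⊗[R] A i) = m i ^ 2) :
    ∃ δ : R, δ ≠ 0 ∧ ∀ g : HomRing R A m,
      ¬ IsNilpotent (g * algebraMap R (HomRing R A m) δ) →
      ∃ d : R, d ≠ 0 ∧ ∀ (Ω : Type) [Field Ω] [IsAlgClosed Ω] (φ : R →+* Ω), φ d ≠ 0 →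
        ∀ (ρ : ∀ i, A i →+* Matrix (Fin (m i)) (Fin (m i)) Ω) (hρ : ∀ i, Over φ (ρ i)),
        ∃ y : ∀ i, (Matrix (Fin (m i)) (Fin (m i)) Ω)ˣ,
          lift φ (fun i => (conj (y i)).comp (ρ i)) (fun i => (hρ i).conj (y i))
            (g * algebraMap R (HomRing R A m) δ) ≠ 0 := by
  classical
  choose e δ1 ρ0 hδ1 hρ0 hspan hdet using fun i => generic_split (A i) (m i) (hc i) (hs i) (hm i)
  obtain ⟨S, hSfg, ρS, hρS, hρS0⟩ := descend_S A m ρ0 hρ0
  obtain ⟨δ2, hδ2, hext⟩ := exists_ext S hSfg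
  -- the determinants
  let D : ∀ i, S := fun i => (Matrix.of fun j k : Fin (m i) × Fin (m i) =>
    ρS i (e i j) k.1 k.2).det
  have hD : ∀ i, D i ≠ 0 := by
    intro i h0
    apply hdet i
    have h1 := congrArg (S.val : S →+* AlgebraicClosure (FractionRing R)) h0
    rw [map_zero] at h1
    rw [← h1, RingHom.map_det]
    congr 1
    ext j k
    rw [RingHom.mapMatrix_apply, Matrix.map_apply, Matrix.of_apply, Matrix.of_apply, ← hρS0 i]
    rfl
  choose d3 hd3 hd3D using fun i => exists_mul S (D i) (hD i)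
  refine ⟨(∏ i, δ1 i) * δ2 * ∏ i, d3 i, mul_ne_zero (mul_ne_zero
    (Finset.prod_ne_zero_iff.2 fun i _ => hδ1 i) hδ2) (Finset.prod_ne_zero_iff.2 fun i _ => hd3 i),
    fun g hg => ?_⟩
  set δ : R := (∏ i, δ1 i) * δ2 * ∏ i, d3 i with hδ
  set g' : HomRing R A m := g * algebraMap R (HomRing R A m) δ with hg'
  -- consequences of the nonvanishing of `δ` at a point
  have hδall : ∀ (Ω : Type) [Field Ω] (φ : R →+* Ω), φ δ ≠ 0 →
      (∀ i, φ (δ1 i) ≠ 0) ∧ φ δ2 ≠ 0 ∧ ∀ i, φ (d3 i) ≠ 0 := by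
    intro Ω _ φ h
    rw [hδ, map_mul, map_mul, map_prod, map_prod] at h
    refine ⟨fun i => Finset.prod_ne_zero_iff.1 (left_ne_zero_of_mul (left_ne_zero_of_mul h)) i
      (Finset.mem_univ i), right_ne_zero_of_mul (left_ne_zero_of_mul h), fun i =>
      Finset.prod_ne_zero_iff.1 (right_ne_zero_of_mul h) i (Finset.mem_univ i)⟩
  -- all representations at a point of `S` are conjugate to the generic one
  have key : ∀ (Ω : Type) [Field Ω] (φ : R →+* Ω) (ψ : S →+* Ω), ψ.comp (algebraMap R S) = φ →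
      φ δ ≠ 0 → ∀ (ρ' : ∀ i, A i →+* Matrix (Fin (m i)) (Fin (m i)) Ω), (∀ i, Over φ (ρ' i)) →
      ∃ u : ∀ i, (Matrix (Fin (m i)) (Fin (m i)) Ω)ˣ,
        ∀ i, ρ' i = (conj (u i)).comp (ψ.mapMatrix.comp (ρS i)) := by
    intro Ω _ φ ψ hψ hφ ρ' hρ'
    obtain ⟨h1, h2, h3⟩ := hδall Ω φ hφ
    have hex : ∀ i, ∃ u : (Matrix (Fin (m i)) (Fin (m i)) Ω)ˣ,
        ρ' i = (conj u).comp (ψ.mapMatrix.comp (ρS i)) := by
      intro i
      refine skolem φ (e i) (fun a => ?_) (ψ.mapMatrix.comp (ρS i)) (ρ' i) ?_ (hρ' i) ?_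
      · obtain ⟨c, hc⟩ := hspan i a
        exact ⟨δ1 i, c, h1 i, hc⟩
      · rw [← hψ]
        exact (hρS i).comp ψ
      · have h4 : ψ (D i) ≠ 0 := by
          obtain ⟨c, hc⟩ := hd3D i
          intro h0
          apply h3 i
          rw [← hψ, RingHom.comp_apply, hc, map_mul, h0, zero_mul]
        intro h0
        apply h4
        rw [← h0, RingHom.map_det]
        rfl
    choose u hu using hex
    exact ⟨u, hu⟩
  -- the polynomial of `g'`
  obtain ⟨k, G, hG⟩ := conj_poly ρS hρS g'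
  have hG0 : G ≠ 0 := by
    intro h0
    obtain ⟨Ω, iΩ, hΩ, χ, hχg⟩ := exists_geom_point g' hg
    have hχδ : χ (algebraMap R (HomRing R A m) δ) ≠ 0 := by
      intro h
      apply hχg
      rw [hg', map_mul, h, mul_zero]
    obtain ⟨ψ, hψ⟩ := hext Ω (χ.comp (algebraMap R (HomRing R A m))) (hδall Ω _ hχδ).2.1
    obtain ⟨u, hu⟩ := key Ω (χ.comp (algebraMap R (HomRing R A m))) ψ hψ hχδ
      (fun i => χ.mapMatrix.comp (univ R A m i)) (fun i => (univ_over i).comp χ)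
    have h1 := hG Ω ψ u
    rw [h0, eval₂_zero] at h1
    have h2 : ∀ i, (u i : Matrix (Fin (m i)) (Fin (m i)) Ω).det ≠ 0 := fun i =>
      ((Matrix.isUnit_iff_isUnit_det _).1 (u i).isUnit).ne_zero
    rcases mul_eq_zero.1 h1.symm with h3 | h3
    · exact Finset.prod_ne_zero_iff.2 (fun i _ => h2 i) (eq_zero_of_pow_eq_zero h3)
    · apply hχg
      rw [← h3]
      conv_lhs => rw [eq_lift χ]
      exact lift_congr _ _ hψ.symm hu g'
  -- a coefficient which is not zero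
  obtain ⟨n0, hn0⟩ : ∃ n0, G.coeff n0 ≠ 0 := by
    by_contra h
    push Not at h
    exact hG0 (MvPolynomial.ext _ _ fun n => by rw [h n, coeff_zero])
  obtain ⟨d4, hd4, c4, hc4⟩ := exists_mul S (G.coeff n0) hn0
  have hδ0 : δ ≠ 0 := mul_ne_zero (mul_ne_zero
    (Finset.prod_ne_zero_iff.2 fun i _ => hδ1 i) hδ2) (Finset.prod_ne_zero_iff.2 fun i _ => hd3 i)
  refine ⟨δ * d4, mul_ne_zero hδ0 hd4, fun Ω _ _ φ hφ ρ hρ => ?_⟩
  rw [map_mul] at hφ
  have hφδ : φ δ ≠ 0 := left_ne_zero_of_mul hφ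
  have hφ4 : φ d4 ≠ 0 := right_ne_zero_of_mul hφ
  obtain ⟨ψ, hψ⟩ := hext Ω φ (hδall _ φ hφδ).2.1
  have hψc : ψ (G.coeff n0) ≠ 0 := by
    intro h0
    apply hφ4
    rw [← hψ, RingHom.comp_apply, hc4, map_mul, h0, zero_mul]
  obtain ⟨v, hv⟩ := key _ φ ψ hψ hφδ ρ hρ
  have hGψ : map ψ G ≠ 0 := by
    intro h0
    apply hψc
    have h1 := congrArg (coeff n0) h0
    rwa [coeff_map, coeff_zero] at h1
  have hinf : Infinite Ω := IsAlgClosed.instInfinite
  obtain ⟨y, hy, hy2⟩ := Pool.Agent.Helper55.BR.exists_pt m (L := Ω) (map ψ G) hGψ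
    (fun i => (v i : Matrix (Fin (m i)) (Fin (m i)) Ω))
    (fun i => (Matrix.isUnit_iff_isUnit_det _).1 (v i).isUnit)
  refine ⟨fun i => ((Matrix.isUnit_iff_isUnit_det _).2 (hy i)).unit, ?_⟩
  intro h0
  apply hy2
  have h2 := hG Ω ψ (fun i => ((Matrix.isUnit_iff_isUnit_det _).2 (hy i)).unit * v i)
  rw [MvPolynomial.eval_map]
  refine Eq.trans (Eq.trans ?_ h2) ?_
  · rfl
  · refine mul_eq_zero_of_right _ (Eq.trans (lift_congr _ _ hψ (fun i => ?_) _) h0)
    rw [hv i, ← conj_conj, RingHom.comp_assoc]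

end Pool.Agent.Helper35.TW
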