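import Pool.Agent.Helper83.Rel.Spec

/-!
# Factorization of a finite family over the fraction field, with denominators cleared
-/

set_option autoImplicit false

namespace Pool.Agent.Helper35.TW

open MvPolynomial Pool.Agent.Helper83.Rel

/-- a finite family of polynomials over a field, not all zero, is a multiple of a coprime family -/
theorem exists_coprime_family {L : Type} [Field L] {n : ℕ} {κ : Type} (T : Finset κ)
    (F : κ → MvPolynomial (Fin n) L) (hT : ∃ f ∈ T, F f ≠ 0) :
    ∃ (D : MvPolynomial (Fin n) L) (g : κ → MvPolynomial (Fin n) L), D ≠ 0 ∧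
      (∀ f ∈ T, F f = D * g f) ∧ ∀ q, Irreducible q → ∃ f ∈ T, ¬ q ∣ g f := by
  classical
  let _ : StrongNormalizationMonoid (MvPolynomial (Fin n) L) :=
    UniqueFactorizationMonoid.strongNormalizationMonoid
  let _ : NormalizedGCDMonoid (MvPolynomial (Fin n) L) :=
    UniqueFactorizationMonoid.toNormalizedGCDMonoid _
  obtain ⟨f0, hf0, hf00⟩ := hT
  obtain ⟨g, hg, hg1⟩ := T.extract_gcd F ⟨f0, hf0⟩
  refine ⟨T.gcd F, g, ?_, hg, fun q hq => ?_⟩
  · intro h0
    exact hf00 (Finset.gcd_eq_zero_iff.1 h0 f0 hf0)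
  · by_contra hcon
    push Not at hcon
    have h1 : q ∣ T.gcd g := Finset.dvd_gcd hcon
    rw [hg1] at h1
    exact hq.not_isUnit (isUnit_of_dvd_one h1)

/-- **A.** -/
theorem fact_clear_family {R : Type} [CommRing R] [IsDomain R] (L : Type) [Field L] [Algebra R L]
    [IsFractionRing R L] {n : ℕ} (Q : MvPolynomial (Fin n) L → MvPolynomial (Fin n) R)
    (d : MvPolynomial (Fin n) L → R) (hd : ∀ g, d g ≠ 0)
    (hQ : ∀ g, map (algebraMap R L) (Q g) = C (algebraMap R L (d g)) * g)
    (T : Finset (MvPolynomial (Fin n) R)) (hT : ∃ f ∈ T, f ≠ 0) :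
    ∃ (M : Multiset (MvPolynomial (Fin n) L)) (x y : R)
      (Q' : MvPolynomial (Fin n) R → MvPolynomial (Fin n) R), x ≠ 0 ∧ y ≠ 0 ∧
      (∀ g ∈ M, Irreducible g ∧ ∀ f ∈ T, g ∣ map (algebraMap R L) f) ∧
      (∀ f ∈ T, C y * f = C x * (M.map Q).prod * Q' f) ∧
      ∀ q : MvPolynomial (Fin n) L, Irreducible q →
        ∃ f ∈ T, ¬ q ∣ map (algebraMap R L) (Q' f) := by
  classical
  have halg : Function.Injective (algebraMap R L) := IsFractionRing.injective R L
  have hinj : Function.Injective (map (σ := Fin n) (algebraMap R L)) := map_injective _ halg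
  have hC : ∀ c : R, c ≠ 0 → IsUnit (C (algebraMap R L c) : MvPolynomial (Fin n) L) := by
    intro c hc
    refine IsUnit.map C (isUnit_iff_ne_zero.2 ?_)
    rwa [Ne, FaithfulSMul.algebraMap_eq_zero_iff]
  obtain ⟨f0, hf0, hf00⟩ := hT
  obtain ⟨D, g, hD, hg, hcop⟩ := exists_coprime_family T (fun f => map (algebraMap R L) f)
    ⟨f0, hf0, by rwa [Ne, map_eq_zero_iff _ hinj]⟩
  -- the greatest common divisor
  have hQD : Q D ≠ 0 := by
    intro h0
    have h1 := hQ D
    rw [h0, map_zero] at h1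
    exact (mul_ne_zero (hC _ (hd D)).ne_zero hD) h1.symm
  obtain ⟨x, y, hx, hy, hxy⟩ := fact_clear L Q d hd hQ (Q D) hQD
  -- the coprime family
  let e : R := ∏ f ∈ T, d (g f)
  have he : e ≠ 0 := Finset.prod_ne_zero_iff.2 fun f _ => hd _
  let Q' : MvPolynomial (Fin n) R → MvPolynomial (Fin n) R := fun f =>
    C (∏ f' ∈ T.erase f, d (g f')) * Q (g f)
  have hQ' : ∀ f ∈ T, map (algebraMap R L) (Q' f) = C (algebraMap R L e) * g f := by
    intro f hf
    show map (algebraMap R L) (C (∏ f' ∈ T.erase f, d (g f')) * Q (g f)) = _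
    rw [map_mul, map_C, hQ, ← mul_assoc, ← C_mul, ← map_mul, mul_comm (∏ f' ∈ T.erase f, d (g f')),
      Finset.mul_prod_erase T (fun f' => d (g f')) hf]
  refine ⟨UniqueFactorizationMonoid.factors (map (algebraMap R L) (Q D)), x, y * (e * d D), Q', hx,
    mul_ne_zero hy (mul_ne_zero he (hd D)), fun p hp => ⟨?_, fun f hf => ?_⟩, fun f hf => ?_,
    fun q hq => ?_⟩
  · exact UniqueFactorizationMonoid.irreducible_of_factor p hp
  · have h1 := UniqueFactorizationMonoid.dvd_of_mem_factors hp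
    rw [hQ] at h1
    have h2 : p ∣ D := ((hC _ (hd D)).dvd_mul_left).1 h1
    rw [hg f hf]
    exact h2.mul_right _
  · have h1 : C (e * d D) * f = Q D * Q' f := by
      apply hinj
      have h3 : map (algebraMap R L) (C (e * d D) * f) =
          C (algebraMap R L e) * C (algebraMap R L (d D)) * map (algebraMap R L) f := by
        rw [map_mul, map_C, map_mul (algebraMap R L), C_mul]
      rw [h3, map_mul, hQ, hQ' f hf, hg f hf]
      ring
    rw [C_mul, mul_assoc, h1, ← mul_assoc, hxy]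
  · obtain ⟨f, hf, hfq⟩ := hcop q hq
    refine ⟨f, hf, ?_⟩
    rw [hQ' f hf]
    rwa [(hC _ he).dvd_mul_left]

end Pool.Agent.Helper35.TW
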