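import Pool.Agent.Helper83.RelL.Leaf

/-!
# Scaling of a finite family of polynomials to unit content at all bad places
-/

set_option autoImplicit false

namespace Pool.Agent.Helper35.TW

open NumberField Pool.Agent.Helper4.CB Pool.Agent.Helper69.CB MvPolynomial
open Pool.Agent.Helper83.RelL

/-- **C.** -/
theorem exists_scale_family (K : Type) [Field K] [NumberField K] {Λ : Finset ℕ}
    (hΛ : ∀ l ∈ Λ, 2 ≤ l) (n N : ℕ) :
    ∃ J0 : ℕ, ∀ J, J0 ≤ J → ∀ (κ : Type) (T : Finset κ) (b : κ → MvPolynomial (Fin n) K),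
      (∃ f ∈ T, b f ≠ 0) → ∑ f ∈ T, (b f).support.card ≤ N →
      ∃ l : K, l ≠ 0 ∧ ∀ p : Pl K, Pool.Agent.Helper65.CL.Bad Λ J p →
        (∀ f ∈ T, ∀ m, vl p ((C l * b f).coeff m) ≤ 1) ∧
          ∃ f ∈ T, ∃ m, vl p ((C l * b f).coeff m) = 1 := by
  classical
  choose j hj using fun N => exists_scaleL K hΛ N
  refine ⟨∑ M ∈ Finset.range (N + 1), j M, fun J hJ κ T b hb hc => ?_⟩
  let S : Finset (Σ _ : κ, Fin n →₀ ℕ) := T.sigma fun f => (b f).support
  have hS : S.card = ∑ f ∈ T, (b f).support.card := Finset.card_sigma _ _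
  have hM : j S.card ≤ J := by
    refine le_trans ?_ hJ
    exact Finset.single_le_sum (f := j) (fun _ _ => Nat.zero_le _)
      (Finset.mem_range.mpr (Nat.lt_succ_of_le (hS ▸ hc)))
  let e := S.equivFin
  let t : Fin S.card → K := fun i => (b (e.symm i : Σ _ : κ, Fin n →₀ ℕ).1).coeff
    (e.symm i : Σ _ : κ, Fin n →₀ ℕ).2
  have ht : t ≠ 0 := by
    obtain ⟨f, hf, hf0⟩ := hb
    obtain ⟨m, hm⟩ := ne_zero_iff.1 hf0
    have hms : (⟨f, m⟩ : Σ _ : κ, Fin n →₀ ℕ) ∈ S :=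
      Finset.mem_sigma.2 ⟨hf, mem_support_iff.2 hm⟩
    intro h0
    have h1 := congrFun h0 (e ⟨_, hms⟩)
    simp only [t, Equiv.symm_apply_apply, Pi.zero_apply] at h1
    exact hm h1
  obtain ⟨l, hl, h⟩ := hj S.card J hM t ht
  refine ⟨l, hl, fun p hp => ?_⟩
  obtain ⟨h1, i, h2⟩ := h p hp
  constructor
  · intro f hf m
    rw [coeff_C_mul]
    by_cases hm : m ∈ (b f).support
    · have hms : (⟨f, m⟩ : Σ _ : κ, Fin n →₀ ℕ) ∈ S := Finset.mem_sigma.2 ⟨hf, hm⟩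
      have h3 := h1 (e ⟨_, hms⟩)
      simp only [t, Equiv.symm_apply_apply] at h3
      exact h3
    · rw [notMem_support_iff.mp hm, mul_zero, map_zero]
      exact zero_le_one
  · exact ⟨_, (Finset.mem_sigma.1 (e.symm i).2).1, (e.symm i : Σ _ : κ, Fin n →₀ ℕ).2, by
      rw [coeff_C_mul]; exact h2⟩

end Pool.Agent.Helper35.TW
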