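import Pool.Agent.Helper83.BR.Core
import Pool.Agent.Helper35.TW.Fact
import Pool.Agent.Helper35.TW.ScaleFam
import Pool.Agent.Helper83.TW.Gauss

/-!
# Harmless points over a general base, for a family of polynomials

The family `T` of polynomials over `R` has unit content at the points of the base, its common
factors over the fraction field are small.
-/

set_option autoImplicit false

namespace Pool.Agent.Helper35.TW

open NumberField Pool.Agent.Helper4.CB MvPolynomial Pool.Agent.Helper65.CB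
open Pool.Agent.Helper69.CB Pool.Agent.Helper49.CB Filter Pool.Agent.Helper83.Rel
open Pool.Agent.Helper83.RelL Pool.Agent.Helper83.BR

/-- **the core for a family** -/
theorem harmless_core_fam {K : Type} [Field K] [NumberField K] {Λ : Finset ℕ}
    (hΛ : ∀ l ∈ Λ, 2 ≤ l)
    {R : Type} [CommRing R] [IsDomain R] (L : Type) [Field L] [Algebra R L] [IsFractionRing R L]
    {dm : ℕ}
    (hE : ∀ A Dg J0 : ℕ, ∃ J, J0 ≤ J ∧ Pool.Agent.Helper65.CL.StepD K Λ J dm A Dg)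
    (Φ : ℕ → (R →+* K) → Prop)
    (hnr : ∀ᶠ J in atTop, ∀ f : R, f ≠ 0 → ∃ φ : R →+* K, Φ J φ ∧ φ f ≠ 0)
    {n : ℕ} (T : Finset (MvPolynomial (Fin n) R)) (hT0 : ∃ f ∈ T, f ≠ 0)
    (hUT : ∀ᶠ J in atTop, ∀ φ, Φ J φ → ∀ p : Pl K, Pool.Agent.Helper65.CL.Bad Λ J p →
      (∀ f ∈ T, ∀ m, vl p (φ (coeff m f)) ≤ 1) ∧ ∃ f ∈ T, ∃ m, vl p (φ (coeff m f)) = 1)
    (hP : ∀ P : MvPolynomial (Fin n) L, Irreducible P →
      (∀ f ∈ T, P ∣ map (algebraMap R L) f) → TriDeg dm P)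
    (G : Finset (MvPolynomial (Fin n) R))
    (hG : ∀ g ∈ G, ∀ m, ∀ᶠ J in atTop, ∀ φ, Φ J φ → ∀ p : Pl K,
      Pool.Agent.Helper65.CL.Bad Λ J p → vl p (φ (coeff m g)) ≤ 1) (J1 : ℕ) :
    ∃ J, J1 ≤ J ∧ ∀ f : MvPolynomial (Fin n) R, f ≠ 0 →
      ∃ (φ : R →+* K) (t : Fin n → K), Φ J φ ∧ eval t (map φ f) ≠ 0 ∧
      ∀ p : Pl K, Pool.Agent.Helper65.CL.Bad Λ J p → (∀ j, vl p (t j) ≤ 1) ∧
        (∃ f ∈ T, vl p (eval t (map φ f)) = 1) ∧
        ∀ g ∈ G, vl p (eval t (map φ g)) ≤ 1 := by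
  classical
  have halg : Function.Injective (algebraMap R L) := IsFractionRing.injective R L
  have hinj : Function.Injective (map (σ := Fin n) (algebraMap R L)) := map_injective _ halg
  -- the factors over `L` and their representatives over `R`
  choose d Q hd hQ using fun g : MvPolynomial (Fin n) L => clearMv (R := R) g
  obtain ⟨M, x, y, Q', hx, hy, hM, hxy, hcop⟩ := fact_clear_family L Q d hd hQ T hT0
  let FF : Finset (MvPolynomial (Fin n) L) := M.toFinset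
  have hMF : ∀ g ∈ M, g ∈ FF := fun g hg => Multiset.mem_toFinset.2 hg
  have hFF : ∀ g ∈ FF, Irreducible g ∧ TriDeg dm g := by
    intro g hg
    have h1 := hM g (Multiset.mem_toFinset.1 hg)
    exact ⟨h1.1, hP g h1.1 h1.2⟩
  have hQ0 : ∀ g ∈ FF, Q g ≠ 0 := by
    intro g hg h0
    have h1 := hQ g
    rw [h0, map_zero] at h1
    rcases mul_eq_zero.1 h1.symm with h2 | h2
    · rw [C_eq_zero, FaithfulSMul.algebraMap_eq_zero_iff] at h2
      exact hd g h2
    · exact (hFF g hg).1.ne_zero h2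
  obtain ⟨f1, hf1, hf10⟩ := hT0
  have hQ'0 : Q' f1 ≠ 0 := by
    intro h0
    have h1 := hxy f1 hf1
    rw [h0, mul_zero] at h1
    rcases mul_eq_zero.1 h1 with h2 | h2
    · rw [C_eq_zero] at h2
      exact hy h2
    · exact hf10 h2
  -- specialisation
  have hTF : ∀ g ∈ FF, ∃ H : R, H ≠ 0 ∧ ∀ φ : R →+* K, φ H ≠ 0 →
      TF dm n (map φ (Q g)) := by
    intro g hg
    refine tf_specR L n (Q g) ?_
    rw [hQ]
    refine TF.smul ?_ n g (tf_of_irreducible n g (hFF g hg).1 (hFF g hg).2)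
    rw [Ne, FaithfulSMul.algebraMap_eq_zero_iff]
    exact hd g
  choose H hH hHφ using hTF
  obtain ⟨H', hH', hHφ'⟩ := cop_specR (K := K) L n (T.image Q') (by
    intro q hq
    obtain ⟨f, hf, hfq⟩ := hcop q hq
    exact ⟨Q' f, Finset.mem_image_of_mem _ hf, hfq⟩)
  have hcoef : ∀ f : MvPolynomial (Fin n) R, f ≠ 0 → ∃ m, coeff m f ≠ 0 := fun f hf =>
    ne_zero_iff.1 hf
  let H0 : R := (∏ g ∈ FF.attach, (H g.1 g.2 * coeff (hcoef _ (hQ0 g.1 g.2)).choose (Q g.1))) *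
    (x * y * (H' * coeff (hcoef _ hQ'0).choose (Q' f1)))
  have hH0 : H0 ≠ 0 := by
    refine mul_ne_zero (Finset.prod_ne_zero_iff.2 fun g _ => mul_ne_zero (hH g.1 g.2)
      (hcoef _ (hQ0 g.1 g.2)).choose_spec) (mul_ne_zero (mul_ne_zero hx hy)
        (mul_ne_zero hH' (hcoef _ hQ'0).choose_spec))
  -- `J` large
  let N1 : ℕ := FF.sup fun g => (Q g).support.card
  let N2 : ℕ := ∑ f ∈ T, (Q' f).support.card
  let Dg : ℕ := max (FF.sup fun g => (Q g).totalDegree) (T.sup fun f => (Q' f).totalDegree)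
  have hG' : ∀ᶠ J in atTop, ∀ g ∈ G, ∀ m ∈ g.support, ∀ φ, Φ J φ → ∀ p : Pl K,
      Pool.Agent.Helper65.CL.Bad Λ J p → vl p (φ (coeff m g)) ≤ 1 := by
    rw [Filter.eventually_all_finset]
    intro g hg
    rw [Filter.eventually_all_finset]
    exact fun m _ => hG g hg m
  obtain ⟨J0, hJ0⟩ := eventually_atTop.1 (hUT.and (hnr.and (hG'.and ((ev_of (exists_ucL K hΛ n
    N1)).and (ev_of (exists_scale_family K hΛ n N2))))))
  obtain ⟨J, hJ, hD⟩ := hE (Fintype.card {g // g ∈ FF} + Fintype.card (Fin 1)) Dg (max J0 J1)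
  obtain ⟨kU, knr, kG, kuc, ksc⟩ := hJ0 J ((le_max_left _ _).trans hJ)
  refine ⟨J, (le_max_right _ _).trans hJ, fun f0 hf0 => ?_⟩
  -- the point of the base
  obtain ⟨m0, hm0⟩ := ne_zero_iff.1 hf0
  obtain ⟨φ, hφ, hφH⟩ := knr (H0 * coeff m0 f0) (mul_ne_zero hH0 hm0)
  rw [map_mul] at hφH
  have hφ0 : φ H0 ≠ 0 := left_ne_zero_of_mul hφH
  have hφm : φ (coeff m0 f0) ≠ 0 := right_ne_zero_of_mul hφH
  rw [map_mul, map_prod, map_mul, map_mul, map_mul] at hφ0
  have hφ1 : ∀ g (hg : g ∈ FF), φ (H g hg) ≠ 0 ∧ ∃ m, φ (coeff m (Q g)) ≠ 0 := by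
    intro g hg
    have h1 := Finset.prod_ne_zero_iff.1 (left_ne_zero_of_mul hφ0) ⟨g, hg⟩ (Finset.mem_attach _ _)
    rw [map_mul] at h1
    exact ⟨left_ne_zero_of_mul h1, _, right_ne_zero_of_mul h1⟩
  have hφxy : φ x * φ y ≠ 0 := left_ne_zero_of_mul (right_ne_zero_of_mul hφ0)
  have hφH' : φ H' ≠ 0 := left_ne_zero_of_mul (right_ne_zero_of_mul (right_ne_zero_of_mul hφ0))
  have hφQ' : map φ (Q' f1) ≠ 0 := by
    rw [ne_zero_iff]
    exact ⟨_, by
      rw [coeff_map]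
      exact right_ne_zero_of_mul (right_ne_zero_of_mul (right_ne_zero_of_mul hφ0))⟩
  have hQφ0 : ∀ g ∈ FF, map φ (Q g) ≠ 0 := by
    intro g hg
    obtain ⟨m, hm⟩ := (hφ1 g hg).2
    rw [ne_zero_iff]
    exact ⟨m, by rw [coeff_map]; exact hm⟩
  have hsc : ∀ g : {g // g ∈ FF}, ∃ l : K, l ≠ 0 ∧ ∀ p : Pl K, Pool.Agent.Helper65.CL.Bad Λ J p →
      UC p (C l * map φ (Q g.1)) := by
    intro g
    refine kuc _ (hQφ0 g.1 g.2) ?_
    refine (Finset.card_le_card (support_map_subset _ _)).trans ?_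
    exact Finset.le_sup (f := fun g => (Q g).support.card) g.2
  choose l hl0 hl using hsc
  let l' : MvPolynomial (Fin n) L → K := fun g => if hg : g ∈ FF then l ⟨g, hg⟩ else 1
  have hl' : ∀ g (hg : g ∈ FF), l' g = l ⟨g, hg⟩ := fun g hg => dif_pos hg
  obtain ⟨lam, hlam0, hlam⟩ := ksc (MvPolynomial (Fin n) R) T (fun f => map φ (Q' f))
    ⟨f1, hf1, hφQ'⟩ (Finset.sum_le_sum fun f _ =>
      Finset.card_le_card (support_map_subset _ _))
  have htd : ∀ (c : K) (f : MvPolynomial (Fin n) R), (C c * map φ f).totalDegree ≤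
      f.totalDegree := by
    intro c f
    refine (totalDegree_mul _ _).trans ?_
    rw [totalDegree_C, zero_add]
    exact Finset.sup_mono (support_map_subset _ _)
  have hClam : IsUnit (C lam : MvPolynomial (Fin n) K) := IsUnit.map C (isUnit_iff_ne_zero.2 hlam0)
  obtain ⟨t, htH, htp⟩ := triClaim2L hD n {g // g ∈ FF} (Fin 1)
    (fun g => C (l g) * map φ (Q g.1)) (fun _ => T.image fun f => C lam * map φ (Q' f))
    (map φ f0) le_rfl
    (fun g => TF.smul (hl0 g) n _ (hHφ g.1 g.2 φ (hφ1 g.1 g.2).1))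
    (by
      intro _ q hq
      obtain ⟨g, hg, hgq⟩ := hHφ' φ hφH' q hq
      obtain ⟨f, hf, rfl⟩ := Finset.mem_image.1 hg
      exact ⟨_, Finset.mem_image_of_mem _ hf, by rwa [hClam.dvd_mul_left]⟩)
    (by
      intro g j
      refine (degreeOf_le_totalDegree _ j).trans ((htd _ _).trans ?_)
      exact (Finset.le_sup (f := fun g => (Q g).totalDegree) g.2).trans (le_max_left _ _))
    (by
      intro _ g hg j
      obtain ⟨f, hf, rfl⟩ := Finset.mem_image.1 hg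
      refine (degreeOf_le_totalDegree _ j).trans ((htd _ _).trans ?_)
      exact (Finset.le_sup (f := fun f => (Q' f).totalDegree) hf).trans (le_max_right _ _))
    (fun p hp g => hl g p hp)
    (by
      intro p hp _
      obtain ⟨h1, f, hf, m, hm⟩ := hlam p hp
      refine ⟨fun g hg m => ?_, _, Finset.mem_image_of_mem _ hf, m, hm⟩
      obtain ⟨f, hf, rfl⟩ := Finset.mem_image.1 hg
      exact h1 f hf m)
    (by
      rw [ne_zero_iff]
      exact ⟨m0, by rw [coeff_map]; exact hφm⟩)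
  refine ⟨φ, t, hφ, htH, fun p hp => ⟨(htp p hp).1, ?_, fun g hg => ?_⟩⟩
  swap
  · refine vl_eval_le_one (fun m => ?_) (htp p hp).1
    rw [coeff_map]
    by_cases hm : m ∈ g.support
    · exact kG g hg m hm φ hφ p hp
    · rw [notMem_support_iff.1 hm, map_zero, map_zero]
      exact zero_le_one
  have hUC : (∀ f ∈ T, ∀ m, vl p ((map φ f).coeff m) ≤ 1) ∧
      ∃ f ∈ T, ∃ m, vl p ((map φ f).coeff m) = 1 := by
    obtain ⟨h1, f, hf, m, hc⟩ := kU φ hφ p hp
    refine ⟨fun f hf m => ?_, f, hf, m, ?_⟩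
    · rw [coeff_map]
      exact h1 f hf m
    · rw [coeff_map]
      exact hc
  refine Pool.Agent.Helper83.TW.vl_eval_of_fam M (fun g => map φ (Q g)) l' (fun g hg => ?_) T
    (fun f => map φ f) (fun f => map φ (Q' f)) hUC (x := φ x) (y := φ y) (l' := lam)
    (right_ne_zero_of_mul hφxy) hlam0 (fun f hf => ?_) (fun g hg => ?_) (hlam p hp)
    (fun g hg => ?_) ?_
  · rw [hl' g (hMF g hg)]
    exact hl0 _
  · have h1 := congrArg (MvPolynomial.map φ) (hxy f hf)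
    rw [map_mul, map_mul, map_mul, map_C, map_C, map_multiset_prod, Multiset.map_map] at h1
    exact h1
  · rw [hl' g (hMF g hg)]
    exact hl ⟨g, hMF g hg⟩ p hp
  · rw [hl' g (hMF g hg)]
    exact (htp p hp).2.1 ⟨g, hMF g hg⟩
  · obtain ⟨g, hg, h1⟩ := (htp p hp).2.2 0
    obtain ⟨f, hf, rfl⟩ := Finset.mem_image.1 hg
    exact ⟨f, hf, h1⟩

end Pool.Agent.Helper35.TW
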