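import Pool.Agent.Helper60.TW.Open
import Pool.Agent.Helper65.TW.Basic
import Pool.Agent.Helper35.TW.CoreFam

/-!
# TOWERS, su_open: `A ^ n` minus a closed subset
-/

set_option autoImplicit false

namespace Pool.Agent.Helper35.TW

open NumberField Pool.Agent.Helper4.CB MvPolynomial
open Pool.Agent.Helper69.CB Filter Pool.Agent.Helper83.Rel Pool.Agent.Helper83.BR
open Pool.Agent.Helper65.CL (Bad)
open Pool.Agent.Helper65.TW Pool.Agent.Helper60.TW

theorem core_family {M : Type} [Field M] [NumberField M] {Λ : Finset ℕ}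
    (hΛ : ∀ l ∈ Λ, l.Prime) {R : Type} [CommRing R] [IsDomain R] (L : Type) [Field L]
    [Algebra R L] [IsFractionRing R L] (n : ℕ) : Core M Λ R L n := by
  have hΛ2 : ∀ l ∈ Λ, 2 ≤ l := fun l hl => (hΛ l hl).two_le
  intro Φ hnr T hT0 hUT hP G hG
  obtain ⟨J, -, hJ⟩ := harmless_core_fam hΛ2 L (dm := 3)
    (Pool.Agent.Helper65.CL.stepD_of_sieve M hΛ2 (Pool.Agent.Helper65.CL.sieveG_three _ hΛ M))
    Φ hnr T hT0 hUT hP G hG 0
  exact ⟨J, hJ⟩

/-- **su_open** -/
theorem su_open {K M R : Type} [Field K] [Field M] [NumberField M] [Algebra K M] [CommRing R]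
    [IsDomain R] [Algebra K R] [Algebra.FiniteType K R] {Λ : Finset ℕ}
    (hΛ : ∀ l ∈ Λ, l.Prime) {t : Ideal R} (h : SUM K M R Λ t) {n s : ℕ}
    (W : Ideal (MvPolynomial (Fin n) R))
    (hs : t ^ s ≤ Ideal.span {c | ∃ a ∈ W, ∃ d, c = MvPolynomial.coeff d a})
    (hP : ∀ P : MvPolynomial (Fin n) (FractionRing R), Irreducible P →
      (∀ a ∈ W, P ∣ MvPolynomial.map (algebraMap R (FractionRing R)) a) → TriDeg 3 P) :
    SUM K M (MvPolynomial (Fin n) R) Λ (t.map (MvPolynomial.C) * W) :=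
  su_open_of h (fun G τ hτ => h.strong hΛ G τ 1 (by rw [pow_one, hτ])) (core_family hΛ _ n) W hs hP

end Pool.Agent.Helper35.TW
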