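import Pool.Agent.Helper35.TW.Core
import Pool.Agent.Helper82.TW.SLZ

/-!
# TOWERS, T6a: points of `HomRing` over `L` with a predicate stable under conjugation by `SL_m(Z)`
-/

set_option autoImplicit false

namespace Pool.Agent.Helper35.TW

open MvPolynomial TensorProduct Pool.Agent.Helper35.BR
open Pool.Agent.Helper98.BR Pool.Agent.Helper66.BR Pool.Agent.Helper29.BR

/-- the image of an integral matrix of determinant one -/
noncomputable def slUnit (L : Type) [CommRing L] {m : ℕ} (V : Matrix (Fin m) (Fin m) ℤ)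
    (hV : V.det = 1) : (Matrix (Fin m) (Fin m) L)ˣ :=
  ((Matrix.isUnit_iff_isUnit_det (V.map (Int.cast : ℤ → L))).2 (by
    have h : (V.map (Int.cast : ℤ → L)).det = 1 := by
      have h1 := (RingHom.map_det (Int.castRingHom L) V).symm
      rw [hV, map_one] at h1
      exact h1
    rw [h]
    exact isUnit_one)).unit

theorem slUnit_coe (L : Type) [CommRing L] {m : ℕ} (V : Matrix (Fin m) (Fin m) ℤ)
    (hV : V.det = 1) :
    ((slUnit L V hV : (Matrix (Fin m) (Fin m) L)ˣ) : Matrix (Fin m) (Fin m) L) =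
      V.map (Int.cast : ℤ → L) := rfl

theorem conj_smul {B : Type} [CommRing B] {m : ℕ} (u u' : (Matrix (Fin m) (Fin m) B)ˣ) (c c' : B)
    (hc : c * c' = 1)
    (h : (u' : Matrix (Fin m) (Fin m) B) = c • (u : Matrix (Fin m) (Fin m) B)) :
    conj u' = conj u := by
  have h2 : ((u'⁻¹ : (Matrix (Fin m) (Fin m) B)ˣ) : Matrix (Fin m) (Fin m) B) =
      c' • ((u⁻¹ : (Matrix (Fin m) (Fin m) B)ˣ) : Matrix (Fin m) (Fin m) B) := by
    rw [Units.inv_eq_of_mul_eq_one_right]
    rw [h, smul_mul_smul_comm, hc, Units.mul_inv, one_smul]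
  ext x : 1
  change (u' : Matrix (Fin m) (Fin m) B) * x * _ = (u : Matrix (Fin m) (Fin m) B) * x * _
  rw [h, h2, smul_mul_assoc, smul_mul_smul_comm, hc, one_smul]

/-- **T6a.** -/
theorem end_points_sl {K : Type} [Field K] {R : Type} [CommRing R] [IsDomain R] [Algebra K R]
    {r : ℕ} (A : Fin r → Type) [∀ i, Ring (A i)] [∀ i, Algebra R (A i)]
    [∀ i, Module.Finite R (A i)] (m : Fin r → ℕ)
    (hc : ∀ i, Algebra.IsCentral (FractionRing R) (FractionRing R ⊗[R] A i))
    (hs : ∀ i, IsSimpleRing (FractionRing R ⊗[R] A i))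
    (hm : ∀ i, Module.finrank (FractionRing R) (FractionRing R ⊗[R] A i) = m i ^ 2)
    (L : Type) [Field L] [CharZero L] [Algebra K L]
    (Good : (R →ₐ[K] L) → (∀ i, A i →+* Matrix (Fin (m i)) (Fin (m i)) L) → Prop)
    (hst : ∀ φ ρ (V : ∀ i, Matrix (Fin (m i)) (Fin (m i)) ℤ) (hV : ∀ i, (V i).det = 1),
      Good φ ρ → Good φ (fun i => (conj (slUnit L (V i) (hV i))).comp (ρ i)))
    (hpt : ∀ f : R, f ≠ 0 → ∃ (φ : R →ₐ[K] L) (ρ : ∀ i, A i →+* Matrix (Fin (m i)) (Fin (m i)) L),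
      Good φ ρ ∧ φ f ≠ 0 ∧ ∀ i, Over (φ : R →+* L) (ρ i)) :
    ∃ δ : R, δ ≠ 0 ∧ ∀ g : HomRing R A m,
      ¬ IsNilpotent (g * algebraMap R (HomRing R A m) δ) →
      ∃ χ : HomRing R A m →ₐ[K] L, Good (χ.comp (IsScalarTower.toAlgHom K R (HomRing R A m)))
          (fun i => ((χ : HomRing R A m →+* L).mapMatrix).comp (univ R A m i)) ∧
        χ (g * algebraMap R (HomRing R A m) δ) ≠ 0 := by
  classical
  obtain ⟨δ, hδ, hcore⟩ := end_core A m hc hs hm
  refine ⟨δ, hδ, fun g hg => ?_⟩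
  obtain ⟨d, hd, hcd⟩ := hcore g hg
  obtain ⟨φ, ρ, hgood, hφ, hρ⟩ := hpt d hd
  set g' : HomRing R A m := g * algebraMap R (HomRing R A m) δ with hg'
  let ι : L →+* AlgebraicClosure L := algebraMap L (AlgebraicClosure L)
  have hι : Function.Injective ι := ι.injective
  have hφd : (ι.comp (φ : R →+* L)) d ≠ 0 := fun h => hφ ((map_eq_zero_iff _ hι).1 h)
  obtain ⟨y, hy⟩ := hcd (AlgebraicClosure L) (ι.comp (φ : R →+* L)) hφd
    (fun i => ι.mapMatrix.comp (ρ i)) (fun i => (hρ i).comp ι)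
  -- determinant one
  have hz : ∀ i, ∃ (z : AlgebraicClosure L) (u : (Matrix (Fin (m i)) (Fin (m i))
      (AlgebraicClosure L))ˣ), z ≠ 0 ∧ (u : Matrix (Fin (m i)) (Fin (m i)) (AlgebraicClosure L)) =
        z • (y i : Matrix (Fin (m i)) (Fin (m i)) (AlgebraicClosure L)) ∧
      (u : Matrix (Fin (m i)) (Fin (m i)) (AlgebraicClosure L)).det = 1 := by
    intro i
    have hdet : (y i : Matrix (Fin (m i)) (Fin (m i)) (AlgebraicClosure L)).det ≠ 0 :=
      ((Matrix.isUnit_iff_isUnit_det _).1 (y i).isUnit).ne_zero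
    rcases Nat.eq_zero_or_pos (m i) with h0 | h0
    · refine ⟨1, y i, one_ne_zero, (one_smul _ _).symm, ?_⟩
      have : IsEmpty (Fin (m i)) := by rw [h0]; infer_instance
      exact Matrix.det_isEmpty
    · obtain ⟨w, hw⟩ := IsAlgClosed.exists_pow_nat_eq
        ((y i : Matrix (Fin (m i)) (Fin (m i)) (AlgebraicClosure L)).det)⁻¹ h0
      have hw0 : w ≠ 0 := by
        rintro rfl
        rw [zero_pow h0.ne'] at hw
        exact inv_ne_zero hdet hw.symm
      have hd1 : (w • (y i : Matrix (Fin (m i)) (Fin (m i)) (AlgebraicClosure L))).det = 1 := by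
        rw [Matrix.det_smul, Fintype.card_fin, hw, inv_mul_cancel₀ hdet]
      exact ⟨w, ((Matrix.isUnit_iff_isUnit_det _).2 (by rw [hd1]; exact isUnit_one)).unit, hw0,
        rfl, hd1⟩
  choose z u hz0 hu hu1 using hz
  -- the polynomial
  let iA : Algebra R L := (φ : R →+* L).toAlgebra
  obtain ⟨k, G, hG⟩ := conj_poly (S := L) ρ (fun i => hρ i) g'
  have hF : eval (fun x : (Σ i : Fin r, Fin (m i) × Fin (m i)) =>
      (u x.1 : Matrix (Fin (m x.1)) (Fin (m x.1)) (AlgebraicClosure L)) x.2.1 x.2.2)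
      (map ι G) ≠ 0 := by
    intro h0
    apply hy
    have h2 := hG (AlgebraicClosure L) ι u
    rw [MvPolynomial.eval_map] at h0
    have h3 := h2.symm.trans h0
    have h4 : (∏ i, (u i : Matrix (Fin (m i)) (Fin (m i)) (AlgebraicClosure L)).det) ^ k ≠ 0 := by
      rw [Finset.prod_congr rfl fun i _ => hu1 i, Finset.prod_const_one, one_pow]
      exact one_ne_zero
    refine Eq.trans (lift_congr _ _ rfl (fun i => ?_) _) ((mul_eq_zero.1 h3).resolve_left h4)
    rw [conj_smul (y i) (u i) (z i) (z i)⁻¹ (mul_inv_cancel₀ (hz0 i)) (hu i)]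
  obtain ⟨V, hV, hVF⟩ := Pool.Agent.Helper82.TW.exists_slz m (map ι G)
    (fun i => (u i : Matrix (Fin (m i)) (Fin (m i)) (AlgebraicClosure L))) hu1 hF
  let χ0 : HomRing R A m →+* L := lift (φ : R →+* L)
    (fun i => (conj (slUnit L (V i) (hV i))).comp (ρ i))
    (fun i => (hρ i).conj (slUnit L (V i) (hV i)))
  obtain ⟨χ, hχ, hχφ⟩ := exists_algHom φ χ0 (fun c => lift_algebraMap _ _ _ c)
  have hχρ : (fun i => ((χ : HomRing R A m →+* L).mapMatrix).comp (univ R A m i)) =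
      fun i => (conj (slUnit L (V i) (hV i))).comp (ρ i) := by
    funext i
    ext a p q
    change χ (univ R A m i a p q) = _
    rw [univ_apply, hχ]
    exact lift_cd _ _ _ _
  refine ⟨χ, ?_, ?_⟩
  · rw [hχφ, hχρ]
    exact hst φ ρ V hV hgood
  · rw [hχ]
    intro h0
    apply hVF
    have h2 := hG L (RingHom.id L) (fun i => slUnit L (V i) (hV i))
    have h3 : eval₂ (RingHom.id L) (fun v : (Σ i : Fin r, Fin (m i) × Fin (m i)) =>
        (slUnit L (V v.1) (hV v.1) : Matrix (Fin (m v.1)) (Fin (m v.1)) L) v.2.1 v.2.2) G = 0 := by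
      refine h2.trans (mul_eq_zero_of_right _ (Eq.trans (lift_congr _ _ rfl (fun i => ?_) _) h0))
      rfl
    have h4 := congrArg ι h3
    rw [map_zero, MvPolynomial.eval₂_comp_left, RingHom.comp_id] at h4
    rw [MvPolynomial.eval_map]
    refine Eq.trans (congrArg (fun w => eval₂ ι w G) ?_) h4
    funext x
    exact (map_intCast ι _).symm

end Pool.Agent.Helper35.TW
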